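import Pool.Agent.Lib.MP_8b1b48_lc.Main

/-!
# MP_8b1b48_lc: randomized approximation of `T(G; x, 1)` for every fixed `0 ≤ x < 1`

For fixed `x` in `[0, 1)` the value `T(G; x, 1)` of the Tutte polynomial of a multigraph is
approximated within the factor `1 ± ε`, with probability at least `3/4`, by an explicit estimator
computed from polynomially many independent runs of polynomial length of the basis exchange walk
on an explicit family of subsets (`xstates`) of a ground set of polynomial size.

Write `1/(1-x) = n + p` with `n` the integral part. The ground set has `2 L` elements for every
vertex, and one element for every edge unless `p = 0`. A set `B` of ground elements determines a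
vector `d = dval L B` on the vertices and edge multiplicities `b = mval n B` (each equal to `n` or
`n + 1`). It is a state when `d` is the score vector of an orientation of the multigraph with
multiplicities `b`, and stays one when a unit is moved along any edge in either direction; so
testing whether a set is a state amounts to `2 |E| + 1` transportation problems.
-/

namespace Pool.Agent.Results.MP_8b1b48_lc.SegmentFpras

open Pool.Agent.Lib.MP_8b1b48_lc

/-- For every fixed `0 ≤ x < 1`, the number `T(G; x, 1)` is approximated within `1 ± ε` with
probability at least `3/4` by polynomially many runs, of polynomial length, of the basis exchange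
walk on the states. -/
theorem result (x : ℝ) (hx0 : 0 ≤ x) (hx1 : x < 1) :
    ∃ C : ℕ, ∀ (V E : Type) [Fintype V] [DecidableEq V] [Nonempty V] [Fintype E]
      [DecidableEq E] (s t : E → V) (ε : ℝ), 0 < ε → ε ≤ 1 →
      ∃ L m l M : ℕ,
        (∀ j ∈ [L, m, l, M], j ≤ C * (Fintype.card V + Fintype.card E + ⌈1 / ε⌉₊) ^ 13) ∧
        (tutte s t x 1 = 0 ↔ xstates s t x L = ∅) ∧
        (0 < x → startState s t L (nx x) (ax x) ∈ xstates s t x L) ∧
        ∀ B₀ ∈ xstates s t x L, 3 / 4 ≤ successProb s t x ε L m l M B₀ :=
  main x hx0 hx1

end Pool.Agent.Results.MP_8b1b48_lc.SegmentFpras
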